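import Pool.Agent.Lib.MP_28303a_al.HIG.Iface
import Mathlib.GroupTheory.FreeGroup.NielsenSchreier

/-! # Module DBL: the subgroup `C = ⟨F, s⁻¹ F s⟩` -/

set_option autoImplicit false

namespace Pool.Agent.NegK.Hig.H78

open SemidirectProduct

theorem hom_ext_closure {G X : Type} [Group G] [Group X] {S : Set G}
    (f g : Subgroup.closure S →* X)
    (h : ∀ (x : G) (hx : x ∈ S),
      f ⟨x, Subgroup.subset_closure hx⟩ = g ⟨x, Subgroup.subset_closure hx⟩) :
    f = g := by
  refine MonoidHom.eq_of_eqOn_dense (Subgroup.closure_closure_coe_preimage (k := S)) ?_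
  rintro ⟨x, hx⟩ hxS
  exact h x hxS

/-- Homomorphisms from `⟨F, s⟩`. -/
theorem ext_hom {K : Type} [Group K] (i : F2 →* K) (L : Subgroup K) (N : Subgroup F2)
    (hi : Function.Injective i) (hN : L.comap i = N) {G : Type} [Group G] (e : K →* G)
    (s : Unit → G) (hG : IsHNN (psysId L) e s) (X : Type) [Group X] (g : F2 →* X) (σ : X)
    (hσ : ∀ n ∈ N, σ * g n = g n * σ) :
    ∃ F : gen e s i.range →* X,
      (∀ f : F2, F ⟨e (i f), gen_of e s ⟨f, rfl⟩⟩ = g f) ∧ F ⟨s (), gen_s e s _ ()⟩ = σ := by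
  have hcomp : (psysId L).Compat i.range := fun _ _ => Iff.rfl
  obtain ⟨F, hF1, hF2⟩ := hG.lift i.range hcomp X
    (g.comp (MonoidHom.ofInjective hi).symm.toMonoidHom) (fun _ => σ) (by
      intro _ c h1 h2
      obtain ⟨x, hx⟩ := h1
      have hxN : x ∈ N := by
        rw [← hN, Subgroup.mem_comap, hx]
        exact c.2
      have h3 : (MonoidHom.ofInjective hi).symm ⟨(psysId L).α () c, ⟨x, hx⟩⟩ = x := by
        rw [MulEquiv.symm_apply_eq]
        exact Subtype.ext hx.symm
      have h4 : (MonoidHom.ofInjective hi).symm ⟨(psysId L).β () c, h2⟩ = x := by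
        rw [MulEquiv.symm_apply_eq]
        exact Subtype.ext hx.symm
      show σ * g ((MonoidHom.ofInjective hi).symm ⟨(psysId L).α () c, ⟨x, hx⟩⟩) =
        g ((MonoidHom.ofInjective hi).symm ⟨(psysId L).β () c, h2⟩) * σ
      rw [h3, h4]
      exact hσ x hxN)
  refine ⟨F, fun f => ?_, hF2 ()⟩
  have h5 := hF1 ⟨i f, ⟨f, rfl⟩⟩
  refine h5.trans ?_
  show g ((MonoidHom.ofInjective hi).symm ⟨i f, ⟨f, rfl⟩⟩) = g f
  congr 1
  rw [MulEquiv.symm_apply_eq]
  rfl

/-- Left multiplication on the basis of the free group on `Q`. -/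
def lact (Q : Type) [Group Q] : Q →* MulAut (FreeGroup Q) where
  toFun q := FreeGroup.freeGroupCongr (Equiv.mulLeft q)
  map_one' := by
    refine MulEquiv.toMonoidHom_injective ?_
    refine FreeGroup.ext_hom _ _ fun a => ?_
    simp [FreeGroup.freeGroupCongr]
  map_mul' p q := by
    refine MulEquiv.toMonoidHom_injective ?_
    refine FreeGroup.ext_hom _ _ fun a => ?_
    simp [FreeGroup.freeGroupCongr, mul_assoc]

theorem lact_of (Q : Type) [Group Q] (q a : Q) :
    lact Q q (FreeGroup.of a) = FreeGroup.of (q * a) := by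
  simp [lact, FreeGroup.freeGroupCongr]

/-- The left coordinate of a homomorphism to a semidirect product with trivial right
coordinate. -/
def leftHom {C A B : Type} [Group C] [Group A] [Group B] {φ : B →* MulAut A}
    (W : C →* A ⋊[φ] B) (h : ∀ x, (W x).right = 1) : C →* A where
  toFun x := (W x).left
  map_one' := by rw [map_one, SemidirectProduct.one_left]
  map_mul' x y := by
    rw [map_mul, SemidirectProduct.mul_left, h x, map_one, MulAut.one_apply]

theorem dbl_le {K : Type} [Group K] (i : F2 →* K) {G : Type} [Group G] (e : K →* G)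
    (s : Unit → G) : dbl (e.comp i) (s ()) ≤ gen e s i.range := by
  unfold dbl
  rw [Subgroup.closure_le]
  rintro x (⟨f, rfl⟩ | ⟨f, rfl⟩)
  · exact gen_of e s ⟨f, rfl⟩
  · exact mul_mem (mul_mem (inv_mem (gen_s e s _ ())) (gen_of e s ⟨f, rfl⟩)) (gen_s e s _ ())

theorem fbf {K : Type} [Group K] (i : F2 →* K) (L : Subgroup K) (N : Subgroup F2) [N.Normal]
    (hi : Function.Injective i) (hN : L.comap i = N) {G : Type} [Group G] (e : K →* G)
    (s : Unit → G) (hG : IsHNN (psysId L) e s) : IsFbF (dbl (e.comp i) (s ())) := by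
  classical
  -- the homomorphism to the semidirect product
  let φ : F2 →* MulAut (FreeGroup (F2 ⧸ N)) := (lact (F2 ⧸ N)).comp (QuotientGroup.mk' N)
  have hφ : ∀ (f : F2) (a : F2 ⧸ N),
      φ f (FreeGroup.of a) = FreeGroup.of ((f : F2 ⧸ N) * a) := fun f a => lact_of _ _ _
  obtain ⟨Φ, hΦ1, hΦ2⟩ := ext_hom i L N hi hN e s hG (FreeGroup (F2 ⧸ N) ⋊[φ] F2)
    (SemidirectProduct.inr : F2 →* FreeGroup (F2 ⧸ N) ⋊[φ] F2)
    (SemidirectProduct.inl (FreeGroup.of (1 : F2 ⧸ N))) (by
      intro n hn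
      refine SemidirectProduct.ext ?_ ?_
      · have h1 : ((n : F2) : F2 ⧸ N) = 1 := (QuotientGroup.eq_one_iff n).2 hn
        simp [hφ, h1]
      · simp)
  -- the inverse
  have hcomm : ∀ n ∈ N, s () * e (i n) = e (i n) * s () := by
    intro n hn
    rw [← hN, Subgroup.mem_comap] at hn
    exact hG.rel () ⟨i n, hn⟩
  let τ : F2 ⧸ N → G := fun q => e (i q.out) * s () * (e (i q.out))⁻¹
  have hτ : ∀ f : F2, τ (f : F2 ⧸ N) = e (i f) * s () * (e (i f))⁻¹ := by
    intro f
    obtain ⟨n, hn⟩ := QuotientGroup.mk_out_eq_mul N f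
    show e (i (Quotient.out (f : F2 ⧸ N))) * s () * (e (i (Quotient.out (f : F2 ⧸ N))))⁻¹ = _
    rw [hn, map_mul, map_mul, mul_inv_rev, mul_assoc (e (i f)), ← hcomm n n.2]
    group
  let Ψ : FreeGroup (F2 ⧸ N) ⋊[φ] F2 →* G := SemidirectProduct.lift (FreeGroup.lift τ)
    (e.comp i) (by
      intro g
      refine FreeGroup.ext_hom _ _ fun a => ?_
      induction a using QuotientGroup.induction_on with
      | H a =>
        show FreeGroup.lift τ (φ g (FreeGroup.of ((a : F2) : F2 ⧸ N))) =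
          e (i g) * FreeGroup.lift τ (FreeGroup.of ((a : F2) : F2 ⧸ N)) * (e (i g))⁻¹
        rw [hφ, FreeGroup.lift_apply_of, FreeGroup.lift_apply_of, ← QuotientGroup.mk_mul, hτ, hτ,
          map_mul, map_mul]
        group)
  have hΨΦ : ∀ x : gen e s i.range, Ψ (Φ x) = x := by
    have h : Ψ.comp Φ = (gen e s i.range).subtype := by
      refine hom_ext_closure _ _ ?_
      rintro x (⟨_, ⟨f, rfl⟩, rfl⟩ | ⟨u, rfl⟩)
      · show Ψ (Φ ⟨e (i f), gen_of e s ⟨f, rfl⟩⟩) = e (i f)
        rw [hΦ1]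
        simp [Ψ]
      · show Ψ (Φ ⟨s (), gen_s e s _ ()⟩) = s ()
        rw [hΦ2]
        have h1 := hτ 1
        simp only [map_one, inv_one, one_mul, mul_one] at h1
        simp only [Ψ, SemidirectProduct.lift_inl, FreeGroup.lift_apply_of]
        exact h1
    exact fun x => DFunLike.congr_fun h x
  have hΦinj : Function.Injective Φ := by
    intro x y hxy
    refine Subtype.ext ?_
    rw [← hΨΦ x, ← hΨΦ y, hxy]
  -- restriction to `C`
  let inc : dbl (e.comp i) (s ()) →* gen e s i.range := Subgroup.inclusion (dbl_le i e s)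
  have hinc : Function.Injective inc := Subgroup.inclusion_injective _
  let ΦC : dbl (e.comp i) (s ()) →* FreeGroup (F2 ⧸ N) ⋊[φ] F2 := Φ.comp inc
  have hΦC : Function.Injective ΦC := hΦinj.comp hinc
  let π : dbl (e.comp i) (s ()) →* F2 := SemidirectProduct.rightHom.comp ΦC
  let σ : F2 →* dbl (e.comp i) (s ()) := (e.comp i).codRestrict _ (fun f => dbl_left _ _ f)
  refine ⟨π, σ, ?_, ?_⟩
  · refine MonoidHom.ext fun f => ?_
    show (Φ ⟨e (i f), _⟩).right = f
    rw [hΦ1]
    simp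
  · let κ : π.ker →* FreeGroup (F2 ⧸ N) := leftHom (ΦC.comp π.ker.subtype) (fun x => x.2)
    have hκ : Function.Injective κ := by
      intro x y hxy
      refine Subtype.ext (hΦC ?_)
      refine SemidirectProduct.ext hxy ?_
      have hx : (ΦC x).right = 1 := x.2
      have hy : (ΦC y).right = 1 := y.2
      rw [hx, hy]
    have hfree : IsFreeGroup κ.range := subgroupIsFreeOfIsFree κ.range
    exact IsFreeGroup.ofMulEquiv (MonoidHom.ofInjective hκ).symm

theorem psi {K : Type} [Group K] (i : F2 →* K) (L : Subgroup K) (N : Subgroup F2) [N.Normal]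
    (hi : Function.Injective i) (hN : L.comap i = N) {G : Type} [Group G] (e : K →* G)
    (s : Unit → G) (hG : IsHNN (psysId L) e s) :
    ∃ ψ : dbl (e.comp i) (s ()) →* F2 ⧸ N,
      (∀ f : F2, ψ ⟨e.comp i f, dbl_left _ _ f⟩ = QuotientGroup.mk f) ∧
      ∀ f : F2, ψ ⟨(s ())⁻¹ * e.comp i f * s (), dbl_right _ _ f⟩ = 1 := by
  let Q : Type := F2 ⧸ N
  let sw : MulAut (Q × Q) := MulEquiv.prodComm
  let φ : MulAut (Q × Q) →* MulAut (Q × Q) := MonoidHom.id _
  obtain ⟨W, hW1, hW2⟩ := ext_hom i L N hi hN e s hG ((Q × Q) ⋊[φ] MulAut (Q × Q))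
    ((SemidirectProduct.inl : (Q × Q) →* (Q × Q) ⋊[φ] MulAut (Q × Q)).comp
      ((MonoidHom.inl Q Q).comp (QuotientGroup.mk' N)))
    (SemidirectProduct.inr sw) (by
      intro n hn
      have h1 : ((n : F2) : F2 ⧸ N) = 1 := (QuotientGroup.eq_one_iff n).2 hn
      have h2 : ((MonoidHom.inl Q Q).comp (QuotientGroup.mk' N)) n = 1 := by
        show ((((n : F2) : F2 ⧸ N), 1) : Q × Q) = 1
        rw [h1]
        rfl
      rw [MonoidHom.comp_apply, h2, map_one, mul_one, one_mul])
  let inc : dbl (e.comp i) (s ()) →* gen e s i.range := Subgroup.inclusion (dbl_le i e s)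
  let WC : dbl (e.comp i) (s ()) →* (Q × Q) ⋊[φ] MulAut (Q × Q) := W.comp inc
  have hL : ∀ f : F2, WC ⟨e.comp i f, dbl_left _ _ f⟩ =
      SemidirectProduct.inl (((f : F2 ⧸ N), 1) : Q × Q) := fun f => hW1 f
  have hR : ∀ f : F2, WC ⟨(s ())⁻¹ * e.comp i f * s (), dbl_right _ _ f⟩ =
      SemidirectProduct.inl ((1, (f : F2 ⧸ N)) : Q × Q) := by
    intro f
    have h1 : inc ⟨(s ())⁻¹ * e.comp i f * s (), dbl_right _ _ f⟩ =
        (⟨s (), gen_s e s _ ()⟩ : gen e s i.range)⁻¹ * ⟨e (i f), gen_of e s ⟨f, rfl⟩⟩ *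
          ⟨s (), gen_s e s _ ()⟩ := Subtype.ext rfl
    show W (inc _) = _
    rw [h1, map_mul, map_mul, map_inv, hW1, hW2]
    refine SemidirectProduct.ext ?_ ?_
    · simp
      rfl
    · simp
  have hright : ∀ x, (WC x).right = 1 := by
    have h : SemidirectProduct.rightHom.comp WC = 1 := by
      refine hom_ext_closure _ _ ?_
      rintro x (⟨f, rfl⟩ | ⟨f, rfl⟩)
      · show (WC ⟨e.comp i f, dbl_left _ _ f⟩).right = 1
        rw [hL, SemidirectProduct.right_inl]
      · show (WC ⟨(s ())⁻¹ * e.comp i f * s (), dbl_right _ _ f⟩).right = 1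
        rw [hR, SemidirectProduct.right_inl]
    exact fun x => DFunLike.congr_fun h x
  refine ⟨(MonoidHom.fst Q Q).comp (leftHom WC hright), fun f => ?_, fun f => ?_⟩
  · show (WC ⟨e.comp i f, dbl_left _ _ f⟩).left.1 = _
    rw [hL, SemidirectProduct.left_inl]
  · show (WC ⟨(s ())⁻¹ * e.comp i f * s (), dbl_right _ _ f⟩).left.1 = _
    rw [hR, SemidirectProduct.left_inl]

theorem dbl : DblStatement := by
  intro K _ i L N _ hi hN G _ e s hG
  exact ⟨fbf i L N hi hN e s hG, psi i L N hi hN e s hG⟩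

end Pool.Agent.NegK.Hig.H78
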